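import Pool.Agent.helper7.SC.Defs

set_option autoImplicit false

/-!
# Functions of bounded degree: basic facts
-/

namespace Pool.Agent.helper75.SC

open MvPolynomial Pool.Agent.helper5.NBS Pool.Agent.helper7.SC

variable {R : Type} [CommRing R] [Algebra ℂ R] {n : ℕ}

theorem mem_W (x : Fin n → R) (s : ℕ) (z : R) :
    z ∈ W x s ↔ ∃ p : MvPolynomial (Fin n) ℂ, p.totalDegree ≤ s ∧ aeval x p = z := by
  simp [W, Submodule.mem_map, mem_restrictTotalDegree]

theorem W_mono (x : Fin n → R) {s t : ℕ} (h : s ≤ t) : W x s ≤ W x t := by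
  intro z hz
  rw [mem_W] at hz ⊢
  obtain ⟨p, h1, h2⟩ := hz
  exact ⟨p, h1.trans h, h2⟩

theorem W_mul (x : Fin n → R) {s t : ℕ} {z w : R} (hz : z ∈ W x s) (hw : w ∈ W x t) :
    z * w ∈ W x (s + t) := by
  rw [mem_W] at hz hw ⊢
  obtain ⟨p, h1, rfl⟩ := hz
  obtain ⟨q, h3, rfl⟩ := hw
  exact ⟨p * q, (totalDegree_mul p q).trans (add_le_add h1 h3), map_mul _ _ _⟩

theorem one_mem_W (x : Fin n → R) (s : ℕ) : (1 : R) ∈ W x s := by
  rw [mem_W]
  exact ⟨1, by simp, by simp⟩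

theorem algebraMap_mem_W (x : Fin n → R) (s : ℕ) (c : ℂ) : algebraMap ℂ R c ∈ W x s := by
  rw [mem_W]
  exact ⟨C c, by simp, by simp⟩

theorem x_mem_W (x : Fin n → R) (l : Fin n) : x l ∈ W x 1 := by
  rw [mem_W]
  exact ⟨X l, by simp, by simp⟩

theorem W_pow (x : Fin n → R) {s : ℕ} {z : R} (hz : z ∈ W x s) (k : ℕ) :
    z ^ k ∈ W x (k * s) := by
  induction k with
  | zero => simpa using one_mem_W x 0
  | succ k ih =>
    rw [pow_succ, Nat.succ_mul]
    exact W_mul x ih hz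

theorem exists_W {x : Fin n → R} (hx : Algebra.adjoin ℂ (Set.range x) = ⊤) (z : R) :
    ∃ s, z ∈ W x s := by
  have h1 : z ∈ Algebra.adjoin ℂ (Set.range x) := by rw [hx]; trivial
  rw [Algebra.adjoin_range_eq_range_aeval] at h1
  obtain ⟨p, hp⟩ := h1
  exact ⟨p.totalDegree, (mem_W x _ z).2 ⟨p, le_rfl, hp⟩⟩

instance W_fin (x : Fin n → R) (s : ℕ) : Module.Finite ℂ (W x s) := by
  unfold W
  infer_instance

theorem noeth {x : Fin n → R} (hx : Algebra.adjoin ℂ (Set.range x) = ⊤) :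
    IsNoetherianRing R := by
  have h1 : Function.Surjective (aeval x : MvPolynomial (Fin n) ℂ →ₐ[ℂ] R) := by
    rw [← AlgHom.range_eq_top, ← Algebra.adjoin_range_eq_range_aeval, hx]
  exact isNoetherianRing_of_surjective _ _ (aeval x : MvPolynomial (Fin n) ℂ →ₐ[ℂ] R).toRingHom h1

end Pool.Agent.helper75.SC
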