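import Mathlib

set_option autoImplicit false

/-!
# Module LP: height one primes are principal at smooth points of a surface
-/

namespace Pool.Agent.helper75.SC

open IsLocalRing

theorem core {O : Type} [CommRing O] [IsDomain O] [IsNoetherianRing O] [IsLocalRing O] (u v : O)
    (hM : maximalIdeal O = Ideal.span {u, v}) (P : Ideal O) (hP : P.IsPrime)
    (hu : u ∉ P) : ∃ f ∈ P, P ≤ Ideal.span {f} := by
  have huM : u ∈ maximalIdeal O := by
    rw [hM]
    exact Ideal.subset_span (by simp)
  have hspanu : Ideal.span {u} ≤ Ideal.jacobson (⊥ : Ideal O) :=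
    ((Ideal.span_singleton_le_iff_mem _).2 huM).trans (maximalIdeal_le_jacobson _)
  have hfg : P.FG := IsNoetherian.noetherian P
  by_cases h : ∀ b : ℕ, P ≤ Ideal.span {u} ⊔ Ideal.span {v ^ b}
  · have h1 : P ≤ Ideal.span {u} := by
      intro g hg
      have h2 : (Ideal.Quotient.mk (Ideal.span {u}) g) ∈
          (⨅ i : ℕ, (maximalIdeal O) ^ i • (⊤ : Submodule O (O ⧸ Ideal.span {u}))) := by
        rw [Submodule.mem_iInf]
        intro i
        obtain ⟨a, ha, b, hb, hab⟩ := Submodule.mem_sup.1 (h i hg)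
        obtain ⟨c, rfl⟩ := Ideal.mem_span_singleton'.1 hb
        have h3 : (Ideal.Quotient.mk (Ideal.span {u}) g) =
            v ^ i • (Ideal.Quotient.mk (Ideal.span {u}) c) := by
          rw [← hab, map_add, Ideal.Quotient.eq_zero_iff_mem.2 ha, zero_add]
          show _ = Ideal.Quotient.mk (Ideal.span {u}) (v ^ i * c)
          rw [mul_comm]
        rw [h3]
        refine Submodule.smul_mem_smul (Ideal.pow_mem_pow ?_ i) trivial
        rw [hM]
        exact Ideal.subset_span (by simp)
      rw [Ideal.iInf_pow_smul_eq_bot_of_isLocalRing _ (maximalIdeal.isMaximal O).ne_top] at h2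
      exact Ideal.Quotient.eq_zero_iff_mem.1 h2
    refine ⟨0, P.zero_mem, ?_⟩
    refine Submodule.le_of_le_smul_of_le_jacobson_bot hfg hspanu ?_
    intro g hg
    obtain ⟨c, rfl⟩ := Ideal.mem_span_singleton'.1 (h1 hg)
    have hc : c ∈ P := (hP.mem_or_mem hg).resolve_right hu
    refine Submodule.mem_sup_right ?_
    rw [mul_comm]
    exact Submodule.smul_mem_smul (Ideal.mem_span_singleton_self u) hc
  · push Not at h
    classical
    have hb := Nat.find_spec h
    have hmin := fun c => Nat.find_min (m := c) h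
    generalize Nat.find h = b at hb hmin
    have hb0 : b ≠ 0 := by
      rintro rfl
      apply hb
      rw [pow_zero, Ideal.span_singleton_one, sup_top_eq]
      exact le_top
    obtain ⟨b, rfl⟩ := Nat.exists_eq_succ_of_ne_zero hb0
    have hb1 : P ≤ Ideal.span {u} ⊔ Ideal.span {v ^ b} := not_not.1 (hmin b (Nat.lt_succ_self b))
    obtain ⟨f, hf, hf2⟩ := SetLike.not_le_iff_exists.1 hb
    obtain ⟨a', ha', w', hw', hab⟩ := Submodule.mem_sup.1 (hb1 hf)
    obtain ⟨a, rfl⟩ := Ideal.mem_span_singleton'.1 ha'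
    obtain ⟨w, rfl⟩ := Ideal.mem_span_singleton'.1 hw'
    have hw : IsUnit w := by
      by_contra hw
      have h1 : w ∈ maximalIdeal O := (mem_maximalIdeal w).2 hw
      rw [hM, Ideal.mem_span_pair] at h1
      obtain ⟨p, q, hpq⟩ := h1
      apply hf2
      refine Submodule.mem_sup.2 ⟨(a + p * v ^ b) * u, Ideal.mem_span_singleton'.2 ⟨_, rfl⟩,
        q * v ^ (b + 1), Ideal.mem_span_singleton'.2 ⟨_, rfl⟩, ?_⟩
      rw [← hab, ← hpq]
      ring
    obtain ⟨w', hw'⟩ := hw.exists_left_inv
    refine ⟨f, hf, Submodule.le_of_le_smul_of_le_jacobson_bot hfg hspanu ?_⟩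
    intro g hg
    obtain ⟨c', hc', d', hd', hcd⟩ := Submodule.mem_sup.1 (hb1 hg)
    obtain ⟨c, rfl⟩ := Ideal.mem_span_singleton'.1 hc'
    obtain ⟨d, rfl⟩ := Ideal.mem_span_singleton'.1 hd'
    have h1 : g = d * w' * f + u * (c - d * w' * a) := by
      rw [← hcd, ← hab]
      calc c * u + d * v ^ b = c * u + d * (w' * w) * v ^ b := by rw [hw']; ring
        _ = _ := by ring
    have h2 : u * (c - d * w' * a) ∈ P := by
      have h3 : u * (c - d * w' * a) = g - d * w' * f := by
        rw [h1]
        ring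
      rw [h3]
      exact Ideal.sub_mem _ hg (Ideal.mul_mem_left _ _ hf)
    have h3 : c - d * w' * a ∈ P := (hP.mem_or_mem h2).resolve_left hu
    rw [h1]
    exact Submodule.add_mem _
      (Submodule.mem_sup_left (Ideal.mul_mem_left _ _ (Ideal.mem_span_singleton_self f)))
      (Submodule.mem_sup_right (Submodule.smul_mem_smul (Ideal.mem_span_singleton_self u) h3))

theorem core' {O : Type} [CommRing O] [IsDomain O] [IsNoetherianRing O] [IsLocalRing O] (u v : O)
    (hM : maximalIdeal O = Ideal.span {u, v}) (P : Ideal O) (hP : P.IsPrime)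
    (hne : ¬ maximalIdeal O ≤ P) : ∃ f ∈ P, P ≤ Ideal.span {f} := by
  by_cases hu : u ∈ P
  · by_cases hv : v ∈ P
    · exfalso
      apply hne
      rw [hM, Ideal.span_le]
      rintro z hz
      rcases hz with rfl | hz
      · exact hu
      · rw [Set.mem_singleton_iff.1 hz]
        exact hv
    · exact core v u (by rw [hM, Set.pair_comm]) P hP hv
  · exact core u v hM P hP hu

end Pool.Agent.helper75.SC

namespace Pool.Agent.helper7.SC

open Pool.Agent.helper75.SC IsLocalRing

theorem local_principal {R : Type} [CommRing R] [IsDomain R] [IsNoetherianRing R] (m : Ideal R)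
    (hmax : m.IsMaximal) (u v : R) (hu : u ∈ m) (hv : v ∈ m)
    (hm : m ≤ Ideal.span {u, v} ⊔ m ^ 2) (P : Ideal R) (hP : P.IsPrime) (hPm : P ≤ m)
    (hne : P ≠ m) : ∃ f ∈ P, ∃ y, y ∉ m ∧ ∀ g ∈ P, ∃ z, y * g = f * z := by
  classical
  have hprime : m.IsPrime := hmax.isPrime
  let O := Localization.AtPrime m
  have hinj : Function.Injective (algebraMap R O) :=
    IsLocalization.injective O m.primeCompl_le_nonZeroDivisors
  have hdom : IsDomain O := IsLocalization.isDomain_localization m.primeCompl_le_nonZeroDivisors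
  have hno : IsNoetherianRing O := IsLocalization.isNoetherianRing m.primeCompl O ‹_›
  have hdisj : Disjoint (m.primeCompl : Set R) (P : Set R) := by
    rw [Set.disjoint_left]
    intro z hz hz2
    exact hz (hPm hz2)
  have hP' : (Ideal.map (algebraMap R O) P).IsPrime :=
    IsLocalization.isPrime_of_isPrime_disjoint m.primeCompl O P hP hdisj
  have hcomap : Ideal.comap (algebraMap R O) (Ideal.map (algebraMap R O) P) = P :=
    IsLocalization.under_map_of_isPrime_disjoint m.primeCompl O hP hdisj
  have hMm : maximalIdeal O = Ideal.map (algebraMap R O) m :=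
    (Localization.AtPrime.map_eq_maximalIdeal).symm
  have hM : maximalIdeal O = Ideal.span {algebraMap R O u, algebraMap R O v} := by
    refine le_antisymm ?_ ?_
    · have h1 : maximalIdeal O ≤ Ideal.span {algebraMap R O u, algebraMap R O v} ⊔
          maximalIdeal O • maximalIdeal O := by
        have h2 := Ideal.map_mono (f := algebraMap R O) hm
        rw [Ideal.map_sup, Ideal.map_pow, Ideal.map_span, ← hMm, Set.image_pair, sq] at h2
        exact h2
      exact Submodule.le_of_le_smul_of_le_jacobson_bot (IsNoetherian.noetherian _)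
        (maximalIdeal_le_jacobson _) h1
    · rw [Ideal.span_le]
      rintro z hz
      rcases hz with rfl | hz
      · rw [hMm]
        exact Ideal.mem_map_of_mem _ hu
      · rw [Set.mem_singleton_iff.1 hz, hMm]
        exact Ideal.mem_map_of_mem _ hv
  obtain ⟨f', hf', hPf⟩ := core' _ _ hM _ hP' (by
    intro h
    apply hne
    refine le_antisymm hPm ?_
    intro z hz
    have h1 : algebraMap R O z ∈ Ideal.map (algebraMap R O) P := by
      apply h
      rw [hMm]
      exact Ideal.mem_map_of_mem _ hz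
    rw [← hcomap]
    exact h1)
  obtain ⟨⟨⟨p, hp⟩, s⟩, hps⟩ := (IsLocalization.mem_map_algebraMap_iff m.primeCompl O).1 hf'
  have hPp : ∀ g ∈ P, ∃ t, t ∉ m ∧ ∃ a, t * g = p * a := by
    intro g hg
    obtain ⟨c, hc⟩ := Ideal.mem_span_singleton'.1 (hPf (Ideal.mem_map_of_mem (algebraMap R O) hg))
    obtain ⟨⟨a, t⟩, hat⟩ := IsLocalization.surj m.primeCompl c
    refine ⟨t * s, fun h => ?_, a, ?_⟩
    · rcases hprime.mem_or_mem h with h1 | h1
      · exact t.2 h1
      · exact s.2 h1
    · apply hinj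
      simp only [map_mul] at hps hat ⊢
      calc algebraMap R O t * algebraMap R O s * algebraMap R O g =
          algebraMap R O t * algebraMap R O s * (c * f') := by rw [hc]
        _ = (c * algebraMap R O t) * (f' * algebraMap R O s) := by ring
        _ = algebraMap R O a * algebraMap R O p := by rw [hat, hps]
        _ = _ := by ring
  obtain ⟨T, hT⟩ : P.FG := IsNoetherian.noetherian P
  have h1 : ∀ g : R, ∃ t, t ∉ m ∧ (g ∈ P → ∃ a, t * g = p * a) := by
    intro g
    by_cases hg : g ∈ P
    · obtain ⟨t, ht, h⟩ := hPp g hg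
      exact ⟨t, ht, fun _ => h⟩
    · exact ⟨1, fun h => hprime.ne_top ((Ideal.eq_top_iff_one _).2 h), fun h => absurd h hg⟩
  choose t ht hta using h1
  refine ⟨p, hp, ∏ g ∈ T, t g, ?_, ?_⟩
  · intro h
    obtain ⟨g, _, hg⟩ := hprime.prod_mem_iff.1 h
    exact ht g hg
  · intro g hg
    rw [← hT] at hg
    induction hg using Submodule.span_induction with
    | mem g hg =>
      have hgP : g ∈ P := by
        rw [← hT]
        exact Submodule.subset_span hg
      obtain ⟨a, ha⟩ := hta g hgP
      refine ⟨(∏ g' ∈ T.erase g, t g') * a, ?_⟩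
      rw [← Finset.mul_prod_erase T t hg]
      calc t g * (∏ g' ∈ T.erase g, t g') * g = (∏ g' ∈ T.erase g, t g') * (t g * g) := by ring
        _ = _ := by rw [ha]; ring
    | zero => exact ⟨0, by simp⟩
    | add a b _ _ ha hb =>
      obtain ⟨z, hz⟩ := ha
      obtain ⟨w, hw⟩ := hb
      exact ⟨z + w, by rw [mul_add, hz, hw]; ring⟩
    | smul c a _ ha =>
      obtain ⟨z, hz⟩ := ha
      refine ⟨c * z, ?_⟩
      rw [smul_eq_mul]
      calc (∏ g ∈ T, t g) * (c * a) = c * ((∏ g ∈ T, t g) * a) := by ring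
        _ = _ := by rw [hz]; ring

theorem finrank_quot_pow {R : Type} [CommRing R] [Algebra ℂ R] (m : Ideal R)
    (hres : ∀ F : R, ∃ c : ℂ, F - algebraMap ℂ R c ∈ m) (u v : R) (hu : u ∈ m) (hv : v ∈ m)
    (hm : m ≤ Ideal.span {u, v} ⊔ m ^ 2) (k : ℕ) :
    Module.Finite ℂ (R ⧸ m ^ k) ∧ 2 * Module.finrank ℂ (R ⧸ m ^ k) ≤ k * (k + 1) := by
  classical
  let S : ℕ → Submodule ℂ R := fun k =>
    Submodule.span ℂ ((fun i => u ^ i * v ^ (k - i)) '' (Set.Iic k))
  have hSm : ∀ k, ∀ s ∈ S k, s ∈ m ^ k := by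
    intro k s hs
    induction hs using Submodule.span_induction with
    | mem s hs =>
      obtain ⟨i, hi, rfl⟩ := hs
      have h1 : i + (k - i) = k := Nat.add_sub_cancel' hi
      show u ^ i * v ^ (k - i) ∈ m ^ k
      rw [← h1, pow_add, h1]
      exact Ideal.mul_mem_mul (Ideal.pow_mem_pow hu i) (Ideal.pow_mem_pow hv _)
    | zero => exact Ideal.zero_mem _
    | add a b _ _ ha hb => exact Ideal.add_mem _ ha hb
    | smul c a _ ha =>
      rw [Algebra.smul_def]
      exact Ideal.mul_mem_left _ _ ha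
  have hSu : ∀ k, ∀ s ∈ S k, s * u ∈ S (k + 1) := by
    intro k s hs
    induction hs using Submodule.span_induction with
    | mem s hs =>
      obtain ⟨i, hi, rfl⟩ := hs
      refine Submodule.subset_span ⟨i + 1, Nat.succ_le_succ hi, ?_⟩
      show u ^ (i + 1) * v ^ (k + 1 - (i + 1)) = u ^ i * v ^ (k - i) * u
      rw [Nat.add_sub_add_right]
      ring
    | zero => rw [zero_mul]; exact Submodule.zero_mem _
    | add a b _ _ ha hb => rw [add_mul]; exact Submodule.add_mem _ ha hb
    | smul c a _ ha => rw [smul_mul_assoc]; exact Submodule.smul_mem _ c ha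
  have hSv : ∀ k, ∀ s ∈ S k, s * v ∈ S (k + 1) := by
    intro k s hs
    induction hs using Submodule.span_induction with
    | mem s hs =>
      obtain ⟨i, hi, rfl⟩ := hs
      refine Submodule.subset_span ⟨i, Nat.le_succ_of_le hi, ?_⟩
      show u ^ i * v ^ (k + 1 - i) = u ^ i * v ^ (k - i) * v
      rw [Nat.succ_sub hi, pow_succ]
      ring
    | zero => rw [zero_mul]; exact Submodule.zero_mem _
    | add a b _ _ ha hb => rw [add_mul]; exact Submodule.add_mem _ ha hb
    | smul c a _ ha => rw [smul_mul_assoc]; exact Submodule.smul_mem _ c ha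
  have hm1 : ∀ b ∈ m, ∃ c d : ℂ, ∃ b' ∈ m ^ 2, b = algebraMap ℂ R c * u + algebraMap ℂ R d * v + b' := by
    intro b hb
    obtain ⟨b1, hb1, b2, hb2, rfl⟩ := Submodule.mem_sup.1 (hm hb)
    obtain ⟨p, q, rfl⟩ := Ideal.mem_span_pair.1 hb1
    obtain ⟨c, hc⟩ := hres p
    obtain ⟨d, hd⟩ := hres q
    refine ⟨c, d, (p - algebraMap ℂ R c) * u + (q - algebraMap ℂ R d) * v + b2, ?_, by ring⟩
    rw [sq] at hb2 ⊢
    exact Ideal.add_mem _ (Ideal.add_mem _ (Ideal.mul_mem_mul hc hu) (Ideal.mul_mem_mul hd hv)) hb2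
  have hstep : ∀ k, ∀ F ∈ m ^ k, ∃ s ∈ S k, F - s ∈ m ^ (k + 1) := by
    intro k
    induction k with
    | zero =>
      intro F _
      obtain ⟨c, hc⟩ := hres F
      refine ⟨algebraMap ℂ R c, ?_, by simpa using hc⟩
      rw [Algebra.algebraMap_eq_smul_one]
      exact Submodule.smul_mem _ _ (Submodule.subset_span ⟨0, by simp, by simp⟩)
    | succ k ih =>
      intro F hF
      rw [pow_succ] at hF
      refine Submodule.mul_induction_on hF (fun a ha b hb => ?_) (fun a b ha hb => ?_)
      · obtain ⟨s, hs, hsa⟩ := ih a ha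
        obtain ⟨c, d, b', hb', rfl⟩ := hm1 b hb
        refine ⟨c • (s * u) + d • (s * v), Submodule.add_mem _ (Submodule.smul_mem _ _ (hSu k s hs))
          (Submodule.smul_mem _ _ (hSv k s hs)), ?_⟩
        have h1 : a * (algebraMap ℂ R c * u + algebraMap ℂ R d * v + b') -
            (c • (s * u) + d • (s * v)) =
            (a - s) * (algebraMap ℂ R c * u + algebraMap ℂ R d * v + b') + s * b' := by
          rw [Algebra.smul_def, Algebra.smul_def]
          ring
        rw [h1]
        refine Ideal.add_mem _ ?_ ?_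
        · rw [pow_succ]
          exact Ideal.mul_mem_mul hsa hb
        · have h2 : k + 1 + 1 = k + 2 := rfl
          rw [h2, pow_add]
          exact Ideal.mul_mem_mul (hSm k s hs) hb'
      · obtain ⟨s, hs, hsa⟩ := ha
        obtain ⟨t, ht, htb⟩ := hb
        refine ⟨s + t, Submodule.add_mem _ hs ht, ?_⟩
        have h1 : a + b - (s + t) = (a - s) + (b - t) := by ring
        rw [h1]
        exact Ideal.add_mem _ hsa htb
  let T : ℕ → Finset R := fun k => (Finset.range k).biUnion fun j =>
    (Finset.range (j + 1)).image fun i => u ^ i * v ^ (j - i)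
  have hall : ∀ k, ∀ F : R, ∃ s ∈ Submodule.span ℂ (T k : Set R), F - s ∈ m ^ k := by
    intro k
    induction k with
    | zero =>
      intro F
      exact ⟨0, Submodule.zero_mem _, by rw [pow_zero, Ideal.one_eq_top]; trivial⟩
    | succ k ih =>
      intro F
      obtain ⟨s, hs, hsF⟩ := ih F
      obtain ⟨t, ht, htF⟩ := hstep k _ hsF
      have hT1 : (T k : Set R) ⊆ T (k + 1) := by
        intro z hz
        simp only [T, Finset.coe_biUnion, Set.mem_iUnion, Finset.coe_range, Set.mem_Iio] at hz ⊢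
        obtain ⟨j, hj, hz⟩ := hz
        exact ⟨j, by omega, hz⟩
      have hT2 : (fun i => u ^ i * v ^ (k - i)) '' (Set.Iic k) ⊆ T (k + 1) := by
        rintro z ⟨i, hi, rfl⟩
        simp only [T, Finset.coe_biUnion, Set.mem_iUnion, Finset.coe_range, Set.mem_Iio,
          Finset.coe_image, Set.mem_image]
        exact ⟨k, by omega, i, Nat.lt_succ_of_le hi, rfl⟩
      refine ⟨s + t, Submodule.add_mem _ (Submodule.span_mono hT1 hs)
        (Submodule.span_mono hT2 ht), ?_⟩
      have h1 : F - (s + t) = F - s - t := by ring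
      rw [h1]
      exact htF
  have hspan : Submodule.span ℂ (((T k).image (Ideal.Quotient.mk (m ^ k)) : Finset _) :
      Set (R ⧸ m ^ k)) = ⊤ := by
    rw [eq_top_iff]
    rintro z -
    obtain ⟨F, rfl⟩ := Ideal.Quotient.mk_surjective z
    obtain ⟨s, hs, hsF⟩ := hall k F
    rw [Ideal.Quotient.eq.2 hsF]
    have h1 : (Ideal.Quotient.mkₐ ℂ (m ^ k)).toLinearMap s ∈ Submodule.map
        (Ideal.Quotient.mkₐ ℂ (m ^ k)).toLinearMap (Submodule.span ℂ (T k : Set R)) :=
      Submodule.mem_map_of_mem hs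
    rw [Submodule.map_span] at h1
    rw [Finset.coe_image]
    exact h1
  refine ⟨⟨⟨_, hspan⟩⟩, ?_⟩
  have h1 := finrank_span_finset_le_card (R := ℂ) ((T k).image (Ideal.Quotient.mk (m ^ k)))
  rw [Set.finrank, hspan, finrank_top] at h1
  have h2 : (T k).card ≤ ∑ j ∈ Finset.range k, (j + 1) :=
    Finset.card_biUnion_le.trans (Finset.sum_le_sum fun j _ =>
      Finset.card_image_le.trans (by rw [Finset.card_range]))
  have h3 : 2 * ∑ j ∈ Finset.range k, (j + 1) = k * (k + 1) := by
    clear h1 h2 hspan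
    induction k with
    | zero => simp
    | succ k ih =>
      rw [Finset.sum_range_succ, mul_add, ih]
      ring
  have h4 := Finset.card_image_le (s := T k) (f := Ideal.Quotient.mk (m ^ k))
  omega

end Pool.Agent.helper7.SC
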