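import Pool.Agent.helper75.SC.AR
import Pool.Agent.helper75.SC.LP

set_option autoImplicit false

/-!
# Module EX: a violating curve produces too many sections
-/

namespace Pool.Agent.helper75.SC

open Pool.Agent.helper5.NBS Pool.Agent.helper7.SC

variable {R : Type} [CommRing R] [Algebra ℂ R] {n : ℕ}

/-- division as a linear map -/
theorem exists_div [IsDomain R] (V : Submodule ℂ R) (q g : R) (hg : g ≠ 0)
    (hV : ∀ F ∈ V, ∃ w, q * F = g * w) : ∃ φ : V →ₗ[ℂ] R, ∀ F : V, q * (F : R) = g * φ F := by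
  have hinj : Function.Injective (LinearMap.mulLeft ℂ g) :=
    fun a b h => mul_left_cancel₀ hg h
  let e := LinearEquiv.ofInjective (LinearMap.mulLeft ℂ g) hinj
  have h1 : ∀ F : V, ((LinearMap.mulLeft ℂ q).comp V.subtype) F ∈
      LinearMap.range (LinearMap.mulLeft ℂ g) := by
    intro F
    obtain ⟨w, hw⟩ := hV F F.2
    exact ⟨w, hw.symm⟩
  refine ⟨e.symm.toLinearMap.comp (LinearMap.codRestrict _ _ h1), fun F => ?_⟩
  have h2 : (e (e.symm (LinearMap.codRestrict _ _ h1 F)) : R) = q * F := by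
    rw [LinearEquiv.apply_symm_apply]
    rfl
  rw [← h2]
  rfl

/-- rank-nullity with bounds -/
theorem finrank_le_of_map {V V' : Submodule ℂ R} [Module.Finite ℂ V] [Module.Finite ℂ V']
    {U : Type} [AddCommGroup U] [Module ℂ U] (φ : V →ₗ[ℂ] U) (D : Submodule ℂ U)
    [Module.Finite ℂ D] (hD : ∀ F, φ F ∈ D) (hker : ∀ F : V, φ F = 0 → (F : R) ∈ V') :
    Module.finrank ℂ V ≤ Module.finrank ℂ V' + Module.finrank ℂ D := by
  have h1 := LinearMap.finrank_range_add_finrank_ker φ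
  have h2 : Module.finrank ℂ (LinearMap.range φ) ≤ Module.finrank ℂ D := by
    refine Submodule.finrank_mono ?_
    rintro _ ⟨F, rfl⟩
    exact hD F
  have h3 : Module.finrank ℂ (LinearMap.ker φ) ≤ Module.finrank ℂ V' := by
    have h4 : Module.finrank ℂ ((LinearMap.ker φ).map V.subtype) =
        Module.finrank ℂ (LinearMap.ker φ) :=
      Submodule.finrank_map_subtype_eq _ _
    rw [← h4]
    refine Submodule.finrank_mono ?_
    rintro _ ⟨F, hF, rfl⟩
    exact hker F hF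
  omega

omit [Algebra ℂ R] in
/-- cancelling an element outside a maximal ideal modulo its powers -/
theorem mem_pow_of_mul_mem {m : Ideal R} (hm : m.IsMaximal) {y : R} (hy : y ∉ m) {M : ℕ} {F : R}
    (h : y * F ∈ m ^ M) : F ∈ m ^ M := by
  obtain ⟨a, b, hb, hab⟩ := hm.exists_inv hy
  have h1 : IsCoprime (Ideal.span {y}) m := by
    rw [Ideal.isCoprime_iff_exists]
    exact ⟨a * y, Ideal.mem_span_singleton'.2 ⟨a, rfl⟩, b, hb, hab⟩
  have h2 : IsCoprime (Ideal.span {y}) (m ^ M) := h1.pow_right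
  rw [Ideal.isCoprime_iff_exists] at h2
  obtain ⟨c, hc, d, hd, hcd⟩ := h2
  obtain ⟨c', rfl⟩ := Ideal.mem_span_singleton'.1 hc
  have h3 : F = c' * (y * F) + d * F := by
    calc F = (c' * y + d) * F := by rw [hcd, one_mul]
      _ = _ := by ring
  rw [h3]
  exact Ideal.add_mem _ (Ideal.mul_mem_left _ _ h) (Ideal.mul_mem_right _ _ hd)

omit [Algebra ℂ R] in
/-- Lemma L -/
theorem lemL [IsDomain R] {P : Ideal R} (hP : P.IsPrime) {G Q f y : R} (hG : G ∈ P) (hQ : Q ∉ P)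
    (hf : f ≠ 0) (hfP : f ∈ P ∨ ∀ g : R, ∃ z, y * g = f * z) (hy : y ∉ P)
    (hyP : ∀ g ∈ P, ∃ z, y * g = f * z) (k : ℕ) (F w : R) (hF : Q ^ k * F = G ^ k * w) :
    ∃ z, y ^ k * F = f ^ k * z := by
  rcases hfP with hfP | hall
  · obtain ⟨g, hg⟩ := hyP G hG
    have h1 : ∀ j ≤ k, ∃ wj, y ^ j * F = f ^ j * wj := by
      intro j
      induction j with
      | zero => exact fun _ => ⟨F, by simp⟩
      | succ j ih =>
        intro hj
        obtain ⟨wj, hwj⟩ := ih (by omega)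
        have h2 : (y ^ k * Q ^ k) * wj = f ^ (k - j) * (y ^ j * (g ^ k * w)) := by
          refine mul_left_cancel₀ (pow_ne_zero j hf) ?_
          calc f ^ j * ((y ^ k * Q ^ k) * wj) = (y ^ k * Q ^ k) * (f ^ j * wj) := by ring
            _ = y ^ k * y ^ j * (Q ^ k * F) := by rw [← hwj]; ring
            _ = y ^ j * (y * G) ^ k * w := by rw [hF]; ring
            _ = y ^ j * (f * g) ^ k * w := by rw [hg]
            _ = f ^ (j + (k - j)) * (y ^ j * (g ^ k * w)) := by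
              rw [Nat.add_sub_cancel' (by omega : j ≤ k)]
              ring
            _ = _ := by ring
        have h3 : (y ^ k * Q ^ k) * wj ∈ P := by
          rw [h2]
          refine Ideal.mul_mem_right _ _ ?_
          exact Ideal.pow_mem_of_mem P hfP _ (by omega)
        have h4 : wj ∈ P := by
          rcases hP.mem_or_mem h3 with h5 | h5
          · exfalso
            rcases hP.mem_or_mem h5 with h6 | h6
            · exact hy (hP.mem_of_pow_mem _ h6)
            · exact hQ (hP.mem_of_pow_mem _ h6)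
          · exact h5
        obtain ⟨z, hz⟩ := hyP wj h4
        refine ⟨z, ?_⟩
        calc y ^ (j + 1) * F = y * (y ^ j * F) := by ring
          _ = f ^ j * (y * wj) := by rw [hwj]; ring
          _ = f ^ (j + 1) * z := by rw [hz]; ring
    exact h1 k le_rfl
  · clear hF
    induction k with
    | zero => exact ⟨F, by simp⟩
    | succ k ih =>
      obtain ⟨z, hz⟩ := ih
      obtain ⟨z', hz'⟩ := hall z
      refine ⟨z', ?_⟩
      calc y ^ (k + 1) * F = y * (y ^ k * F) := by ring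
        _ = f ^ k * (y * z) := by rw [hz]; ring
        _ = f ^ (k + 1) * z' := by rw [hz']; ring

theorem ar_iter {x : Fin n → R} {G : R} {c : ℕ} (h : ∀ s z, G * z ∈ W x s → z ∈ W x (s + c))
    (j : ℕ) : ∀ s z, G ^ j * z ∈ W x s → z ∈ W x (s + j * c) := by
  induction j with
  | zero => intro s z hz; simpa using hz
  | succ j ih =>
    intro s z hz
    have h1 : G * (G ^ j * z) ∈ W x s := by
      have h2 : G * (G ^ j * z) = G ^ (j + 1) * z := by ring
      rwa [h2]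
    have h3 := ih _ _ (h _ _ h1)
    have h4 : s + c + j * c = s + (j + 1) * c := by ring
    rwa [h4] at h3

/-- the space of functions of degree at most `a` which are divisible `k` times -/
noncomputable def Ik (x : Fin n → R) (Q G : R) (a k : ℕ) : Submodule ℂ R where
  carrier := {F | F ∈ W x a ∧ ∃ w, Q ^ k * F = G ^ k * w}
  add_mem' := by
    rintro F F' ⟨h1, w, hw⟩ ⟨h2, w', hw'⟩
    exact ⟨Submodule.add_mem _ h1 h2, w + w', by rw [mul_add, hw, hw', mul_add]⟩
  zero_mem' := ⟨Submodule.zero_mem _, 0, by simp⟩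
  smul_mem' := by
    rintro c F ⟨h1, w, hw⟩
    exact ⟨Submodule.smul_mem _ c h1, c • w, by
      rw [mul_smul_comm, hw, mul_smul_comm]⟩

instance Ik_fin (x : Fin n → R) (Q G : R) (a k : ℕ) : Module.Finite ℂ (Ik x Q G a k) :=
  Submodule.finiteDimensional_of_le (S₁ := Ik x Q G a k) (S₂ := W x a) fun _ h => h.1

theorem step [IsDomain R] {x : Fin n → R} {P : Ideal R} {Q G : R} (hG0 : G ≠ 0)
    (hQP : ∀ g ∈ P, ∃ z, Q * g = G * z) {d c : ℕ} (hQ : Q ∈ W x d)
    (hc : ∀ s z, G * z ∈ W x s → z ∈ W x (s + c)) (a j : ℕ) :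
    Module.finrank ℂ (Ik x Q G a j) ≤ Module.finrank ℂ (Ik x Q G a (j + 1)) +
      hilb x P (a + j * (d + c)) := by
  obtain ⟨φ, hφ⟩ := exists_div (Ik x Q G a j) (Q ^ j) (G ^ j) (pow_ne_zero j hG0)
    (fun F hF => hF.2)
  have hW : ∀ F, φ F ∈ W x (a + j * (d + c)) := by
    intro F
    have h1 : G ^ j * φ F ∈ W x (j * d + a) := by
      rw [← hφ]
      exact W_mul x (W_pow x hQ j) F.2.1
    have h2 := ar_iter hc j _ _ h1
    have h3 : j * d + a + j * c = a + j * (d + c) := by ring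
    rwa [h3] at h2
  refine finrank_le_of_map ((Ideal.Quotient.mkₐ ℂ P).toLinearMap.comp φ)
    ((W x (a + j * (d + c))).map (Ideal.Quotient.mkₐ ℂ P).toLinearMap)
    (fun F => ⟨φ F, hW F, rfl⟩) fun F hF => ?_
  have h1 : φ F ∈ P := Ideal.Quotient.eq_zero_iff_mem.1 hF
  obtain ⟨z, hz⟩ := hQP _ h1
  refine ⟨F.2.1, z, ?_⟩
  calc Q ^ (j + 1) * (F : R) = Q * (Q ^ j * F) := by ring
    _ = G ^ j * (Q * φ F) := by rw [hφ]; ring
    _ = G ^ (j + 1) * z := by rw [hz]; ring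

theorem chain [IsDomain R] {x : Fin n → R} {P : Ideal R} {Q G : R} (hG0 : G ≠ 0)
    (hQP : ∀ g ∈ P, ∃ z, Q * g = G * z) {d c : ℕ} (hQ : Q ∈ W x d)
    (hc : ∀ s z, G * z ∈ W x s → z ∈ W x (s + c)) (a k : ℕ) :
    Module.finrank ℂ (W x a) ≤ Module.finrank ℂ (Ik x Q G a k) +
      ∑ j ∈ Finset.range k, hilb x P (a + j * (d + c)) := by
  induction k with
  | zero =>
    rw [Finset.sum_range_zero, add_zero]
    exact Submodule.finrank_mono fun F hF => ⟨hF, F, by simp⟩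
  | succ k ih =>
    have h1 := step hG0 hQP hQ hc a k
    rw [Finset.sum_range_succ]
    omega

instance Lsys_fin (x : Fin n → R) (a : ℕ) {r : ℕ} (m : Fin r → Ideal R) (M : ℕ) :
    Module.Finite ℂ (Lsys x a m M) :=
  Submodule.finiteDimensional_of_le (S₁ := Lsys x a m M) (S₂ := W x a) inf_le_left

theorem last [IsDomain R] {x : Fin n → R} {Q G : R} {r : ℕ} (m : Fin r → Ideal R)
    (hmax : ∀ i, (m i).IsMaximal) (μ : Fin r → ℕ) (f y : Fin r → R) (hf : ∀ i, f i ≠ 0)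
    (hfm : ∀ i, f i ∈ m i ^ μ i) (hy : ∀ i, y i ∉ m i ∨ y i = 1)
    (k : ℕ) (a M : ℕ) (hfin : ∀ i, Module.Finite ℂ (R ⧸ m i ^ (M - k * μ i)))
    (hL : ∀ i, ∀ F w, Q ^ k * F = G ^ k * w → ∃ z, y i ^ k * F = f i ^ k * z) :
    Module.finrank ℂ (Ik x Q G a k) ≤ Module.finrank ℂ (Lsys x a m M) +
      ∑ i, Module.finrank ℂ (R ⧸ m i ^ (M - k * μ i)) := by
  have h1 : ∀ i, ∃ φ : Ik x Q G a k →ₗ[ℂ] R, ∀ F : Ik x Q G a k,
      y i ^ k * (F : R) = f i ^ k * φ F := fun i =>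
    exists_div _ _ _ (pow_ne_zero k (hf i)) fun F hF => by
      obtain ⟨w, hw⟩ := hF.2
      exact hL i F w hw
  choose φ hφ using h1
  have h2 := finrank_le_of_map (V' := Lsys x a m M)
    (LinearMap.pi fun i => (Ideal.Quotient.mkₐ ℂ (m i ^ (M - k * μ i))).toLinearMap.comp (φ i))
    ⊤ (fun _ => trivial) (fun F hF => by
      refine ⟨F.2.1, ?_⟩
      show (F : R) ∈ ⨅ i, (m i ^ M).restrictScalars ℂ
      rw [Submodule.mem_iInf]
      intro i
      show (F : R) ∈ m i ^ M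
      have h3 : φ i F ∈ m i ^ (M - k * μ i) :=
        Ideal.Quotient.eq_zero_iff_mem.1 (congrFun hF i)
      have h4 : y i ^ k * (F : R) ∈ m i ^ M := by
        rw [hφ]
        have h5 : f i ^ k * φ i F ∈ m i ^ (μ i * k + (M - k * μ i)) := by
          rw [pow_add, pow_mul]
          exact Ideal.mul_mem_mul (Ideal.pow_mem_pow (hfm i) k) h3
        have h6 : M ≤ μ i * k + (M - k * μ i) := by
          rw [mul_comm (μ i) k]
          omega
        exact Ideal.pow_le_pow_right h6 h5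
      rcases hy i with h7 | h7
      · exact mem_pow_of_mul_mem (hmax i) (fun h8 => h7 ((hmax i).isPrime.mem_of_pow_mem _ h8)) h4
      · rw [h7] at h4
        simpa using h4)
  rw [finrank_top, Module.finrank_pi_fintype] at h2
  exact h2

end Pool.Agent.helper75.SC

namespace Pool.Agent.helper7.SC

open Pool.Agent.helper5.NBS Pool.Agent.helper75.SC

theorem nonneg_of_bound {e c : ℝ} {H : ℕ → ℕ} (h : ∀ s, (H s : ℝ) ≤ e * s + c) : 0 ≤ e := by
  by_contra h1
  push Not at h1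
  obtain ⟨s, hs⟩ := exists_nat_gt (c / (-e))
  have h2 := h s
  have h3 : c < s * (-e) := (div_lt_iff₀ (by linarith)).1 hs
  have h4 : (0 : ℝ) ≤ H s := Nat.cast_nonneg _
  linarith

theorem excess {R : Type} [CommRing R] [IsDomain R] [Algebra ℂ R] {n : ℕ} (x : Fin n → R)
    (hx : Algebra.adjoin ℂ (Set.range x) = ⊤) (N : ℕ)
    (hgrow : ∃ c : ℤ, ∀ s : ℕ, N * (s : ℤ) ^ 2 - c * (s + 1) ≤ 2 * Module.finrank ℂ (W x s))
    {r : ℕ} (m : Fin r → Ideal R) (hmax : ∀ i, (m i).IsMaximal)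
    (hres : ∀ i (F : R), ∃ c : ℂ, F - algebraMap ℂ R c ∈ m i) (u v : Fin r → R)
    (hu : ∀ i, u i ∈ m i) (hv : ∀ i, v i ∈ m i)
    (hm : ∀ i, m i ≤ Ideal.span {u i, v i} ⊔ m i ^ 2)
    (P : Ideal R) (hP : P.IsPrime) (hne : ∀ i, P ≠ m i) (μ : Fin r → ℕ)
    (hμ : ∀ i, P ≤ m i ^ μ i) (e c : ℝ) (hhilb : ∀ s, (hilb x P s : ℝ) ≤ e * s + c)
    (A B : ℕ) (hA : 0 < A) (hB : 0 < B) (hviol : e * B < A * ∑ i, (μ i : ℝ)) :
    ∃ t : ℕ, 0 < t ∧ ∃ C : ℝ, ∀ k : ℕ,
      ((N : ℝ) * B ^ 2 - r * A ^ 2) * (t * k) ^ 2 + k ^ 2 ≤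
        2 * Module.finrank ℂ (Lsys x (B * t * k) m (A * t * k)) + C * (k + 1) := by
  have hNoeth := noeth hx
  have he : 0 ≤ e := nonneg_of_bound hhilb
  obtain ⟨cg, hcg⟩ := hgrow
  -- some multiplicity is positive
  obtain ⟨i1, hi1⟩ : ∃ i, μ i ≠ 0 := by
    by_contra h
    push Not at h
    have h1 : ∑ i, (μ i : ℝ) = 0 := by simp [h]
    rw [h1, mul_zero] at hviol
    have h2 : 0 ≤ e * B := mul_nonneg he (Nat.cast_nonneg _)
    linarith
  by_cases hP0 : P = ⊥
  · -- degenerate case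
    have hN : N = 0 := by
      by_contra hN
      have h1 : ∀ s, Module.finrank ℂ (W x s) = hilb x P s := by
        intro s
        refine (Submodule.equivMapOfInjective (Ideal.Quotient.mkₐ ℂ P).toLinearMap ?_
          (W x s)).finrank_eq
        intro a b hab
        have h2 : a - b ∈ P := Ideal.Quotient.eq.1 hab
        rw [hP0] at h2
        exact sub_eq_zero.1 h2
      obtain ⟨s, hs⟩ := exists_nat_gt (|(cg : ℝ)| + 2 * e + 2 * |c| + 1)
      have h2 : ((N * (s : ℤ) ^ 2 - cg * (s + 1) : ℤ) : ℝ) ≤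
          ((2 * Module.finrank ℂ (W x s) : ℤ) : ℝ) := by exact_mod_cast hcg s
      rw [h1] at h2
      push_cast at h2
      have h3 := hhilb s
      have h4 : (1 : ℝ) ≤ N := by exact_mod_cast Nat.one_le_iff_ne_zero.2 hN
      have h5 : (0 : ℝ) ≤ s := Nat.cast_nonneg _
      have h6 := le_abs_self (cg : ℝ)
      have h7 := le_abs_self c
      have h8 := abs_nonneg (cg : ℝ)
      have h9 := abs_nonneg c
      have h10 : (s : ℝ) ^ 2 ≤ N * (s : ℝ) ^ 2 := by
        have := sq_nonneg (s : ℝ)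
        nlinarith
      have h11 : (cg : ℝ) * (s + 1) ≤ |(cg : ℝ)| * (s + 1) := by nlinarith
      have h12 : 2 * (e * s + c) ≤ (2 * e + 2 * |c|) * (s + 1) := by nlinarith
      have h13 : (s : ℝ) ^ 2 ≤ (|(cg : ℝ)| + 2 * e + 2 * |c|) * (s + 1) := by nlinarith
      nlinarith
    refine ⟨1, one_pos, 0, fun k => ?_⟩
    subst hN
    have hr : 1 ≤ r := by
      have := i1.2
      omega
    have h1 : (1 : ℝ) ≤ r := by exact_mod_cast hr
    have h2 : (1 : ℝ) ≤ (A : ℝ) ^ 2 := by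
      have : (1 : ℝ) ≤ A := by exact_mod_cast hA
      nlinarith
    have h3 : (0 : ℝ) ≤ Module.finrank ℂ (Lsys x (B * 1 * k) m (A * 1 * k)) := Nat.cast_nonneg _
    have h4 : (1 : ℝ) ≤ r * A ^ 2 := by nlinarith
    have h5 : (0 : ℝ) ≤ (k : ℝ) ^ 2 := sq_nonneg _
    push_cast
    nlinarith
  -- the functions f i, y i
  have hPt : P ≠ ⊤ := hP.ne_top
  have h1 : ∀ i, ∃ f y : R, f ≠ 0 ∧ f ∈ m i ^ μ i ∧ (y ∉ m i ∨ y = 1) ∧ y ∉ P ∧
      (f ∈ P ∨ ∀ g : R, ∃ z, y * g = f * z) ∧ (∀ g ∈ P, ∃ z, y * g = f * z) ∧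
      (μ i ≠ 0 → f ∈ P) := by
    intro i
    by_cases hi : μ i = 0
    · refine ⟨1, 1, one_ne_zero, ?_, Or.inr rfl, ?_, Or.inr fun g => ⟨g, rfl⟩,
        fun g _ => ⟨g, rfl⟩, fun h => absurd hi h⟩
      · rw [hi, pow_zero, Ideal.one_eq_top]
        exact Submodule.mem_top
      · exact fun h => hPt ((Ideal.eq_top_iff_one _).2 h)
    · have hPm : P ≤ m i := (hμ i).trans (Ideal.pow_le_self hi)
      obtain ⟨f, hf, y, hy, h⟩ := local_principal (m i) (hmax i) (u i) (v i) (hu i) (hv i) (hm i)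
        P hP hPm (hne i)
      have hyP : y ∉ P := fun h => hy (hPm h)
      refine ⟨f, y, ?_, hμ i hf, Or.inl hy, hyP, Or.inl hf, h, fun _ => hf⟩
      rintro rfl
      apply hP0
      rw [eq_bot_iff]
      intro g hg
      obtain ⟨z, hz⟩ := h g hg
      rw [zero_mul] at hz
      rcases mul_eq_zero.1 hz with h2 | h2
      · exact absurd (h2 ▸ P.zero_mem) hyP
      · exact h2
  choose f y hf0 hfm hym hyP hfP hfy hfP' using h1
  set G := f i1 with hG
  set Q := y i1 with hQ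
  have hG0 : G ≠ 0 := hf0 i1
  obtain ⟨c', hc'⟩ := ar x hx G hG0
  obtain ⟨d, hd⟩ := exists_W hx Q
  have hsum : ∀ a k : ℕ, (2 : ℝ) * ∑ j ∈ Finset.range k, (hilb x P (a + j * (d + c')) : ℝ) ≤
      2 * k * (e * a + c) + e * (d + c') * k ^ 2 := by
    intro a k
    induction k with
    | zero => simp
    | succ k ih =>
      rw [Finset.sum_range_succ, mul_add]
      have h6 := hhilb (a + k * (d + c'))
      have h7 : 0 ≤ e * ((d : ℝ) + c') := mul_nonneg he (by positivity)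
      push_cast at h6 ⊢
      nlinarith
  -- the key inequality
  have key : ∀ a M k : ℕ, (N : ℝ) * a ^ 2 - cg * (a + 1) ≤
      2 * Module.finrank ℂ (Lsys x a m M) + 2 * k * (e * a + c) + e * (d + c') * k ^ 2 +
        ∑ i, (((M : ℝ) - k * μ i) ^ 2 + M) := by
    intro a M k
    have h1 := chain (x := x) hG0 (hfy i1) hd hc' a k
    have h2 := last (x := x) (Q := Q) (G := G) m hmax μ f y hf0 hfm hym k a M
      (fun i => (finrank_quot_pow (m i) (hres i) (u i) (v i) (hu i) (hv i) (hm i) _).1)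
      (fun i F w h => lemL hP (hfP' i1 hi1) (hyP i1) (hf0 i) (hfP i) (hyP i) (hfy i) k F w h)
    have h3 : ∀ i, (2 * Module.finrank ℂ (R ⧸ m i ^ (M - k * μ i)) : ℝ) ≤
        ((M : ℝ) - k * μ i) ^ 2 + M := by
      intro i
      have h4 := (finrank_quot_pow (m i) (hres i) (u i) (v i) (hu i) (hv i) (hm i)
        (M - k * μ i)).2
      have h5 : ((2 * Module.finrank ℂ (R ⧸ m i ^ (M - k * μ i)) : ℕ) : ℝ) ≤
          (((M - k * μ i) * (M - k * μ i + 1) : ℕ) : ℝ) := by exact_mod_cast h4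
      push_cast at h5
      rcases le_total (k * μ i) M with h6 | h6
      · rw [Nat.cast_sub h6] at h5
        push_cast at h5
        have h7 : (0 : ℝ) ≤ k * μ i := by positivity
        nlinarith
      · rw [Nat.sub_eq_zero_of_le h6] at h5
        have h7 : (0 : ℝ) ≤ ((M : ℝ) - k * μ i) ^ 2 := sq_nonneg _
        have h8 : (0 : ℝ) ≤ M := Nat.cast_nonneg _
        rw [Nat.sub_eq_zero_of_le h6]
        push_cast at h5
        linarith
    have h4 : (2 : ℝ) * ∑ i, (Module.finrank ℂ (R ⧸ m i ^ (M - k * μ i)) : ℝ) ≤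
        ∑ i, (((M : ℝ) - k * μ i) ^ 2 + M) := by
      rw [Finset.mul_sum]
      exact Finset.sum_le_sum fun i _ => h3 i
    have h5 := hsum a k
    have h6 : (Module.finrank ℂ (W x a) : ℝ) ≤ Module.finrank ℂ (Ik x Q G a k) +
        ∑ j ∈ Finset.range k, (hilb x P (a + j * (d + c')) : ℝ) := by exact_mod_cast h1
    have h7 : (Module.finrank ℂ (Ik x Q G a k) : ℝ) ≤ Module.finrank ℂ (Lsys x a m M) +
        ∑ i, (Module.finrank ℂ (R ⧸ m i ^ (M - k * μ i)) : ℝ) := by exact_mod_cast h2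
    have h8 : ((N * (a : ℤ) ^ 2 - cg * (a + 1) : ℤ) : ℝ) ≤
        ((2 * Module.finrank ℂ (W x a) : ℤ) : ℝ) := by exact_mod_cast hcg a
    push_cast at h8
    linarith
  -- the choice of t
  set σ : ℝ := ∑ i, (μ i : ℝ) with hσ
  set ν : ℝ := ∑ i, (μ i : ℝ) ^ 2 with hν
  have hgap : 0 < A * σ - e * B := by linarith
  obtain ⟨t0, ht0⟩ := exists_nat_gt ((e * (d + c') + ν + 1) / (2 * (A * σ - e * B)))
  have ht : e * (d + c') + ν + 1 ≤ 2 * ((t0 + 1 : ℕ) : ℝ) * (A * σ - e * B) := by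
    rw [div_lt_iff₀ (by linarith)] at ht0
    push_cast
    nlinarith
  generalize htt : t0 + 1 = t at ht
  have htpos : 0 < t := by omega
  refine ⟨t, htpos, |(cg : ℝ)| * (B * t + 1) + 2 * |c| + r * A * t, fun k => ?_⟩
  have h1 := key (B * t * k) (A * t * k) k
  have h2 : ∀ M : ℝ, ∑ i, ((M - k * μ i) ^ 2 + M) = r * M ^ 2 - 2 * M * k * σ + k ^ 2 * ν + r * M := by
    intro M
    calc ∑ i, ((M - k * μ i) ^ 2 + M) = ∑ i, (M ^ 2 - 2 * M * k * μ i + k ^ 2 * (μ i : ℝ) ^ 2 + M) :=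
          Finset.sum_congr rfl fun i _ => by ring
      _ = _ := by
        rw [Finset.sum_add_distrib, Finset.sum_add_distrib, Finset.sum_sub_distrib,
          ← Finset.mul_sum, ← Finset.mul_sum]
        simp [hσ, hν]
  rw [h2] at h1
  push_cast at h1
  have h3 : (cg : ℝ) * (B * t * k + 1) ≤ |(cg : ℝ)| * (B * t + 1) * (k + 1) := by
    have h4 := le_abs_self (cg : ℝ)
    have h5 := abs_nonneg (cg : ℝ)
    have h6 : (0 : ℝ) ≤ B * t * k + 1 := by positivity
    have h7 : (B * t * k + 1 : ℝ) ≤ (B * t + 1) * (k + 1) := by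
      have h8 : (0 : ℝ) ≤ B * t := by positivity
      have h9 : (0 : ℝ) ≤ k := Nat.cast_nonneg _
      nlinarith
    calc (cg : ℝ) * (B * t * k + 1) ≤ |(cg : ℝ)| * (B * t * k + 1) :=
          mul_le_mul_of_nonneg_right h4 h6
      _ ≤ |(cg : ℝ)| * ((B * t + 1) * (k + 1)) := mul_le_mul_of_nonneg_left h7 h5
      _ = _ := by ring
  have h4 : 2 * (k : ℝ) * c ≤ 2 * |c| * (k + 1) := by
    have h5 := le_abs_self c
    have h6 := abs_nonneg c
    have h9 : (0 : ℝ) ≤ k := Nat.cast_nonneg _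
    nlinarith
  have h5 : (r : ℝ) * (A * t * k) ≤ r * A * t * (k + 1) := by
    have h6 : (0 : ℝ) ≤ r * A * t := by positivity
    nlinarith
  have h6 : (k : ℝ) ^ 2 * (e * (d + c') + ν + 1) ≤ k ^ 2 * (2 * t * (A * σ - e * B)) :=
    mul_le_mul_of_nonneg_left ht (sq_nonneg _)
  linarith

end Pool.Agent.helper7.SC
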