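import Pool.Agent.helper75.SC.WBasic

set_option autoImplicit false

/-!
# Module AR: an Artin-Rees type bound by the Rees algebra
-/

namespace Pool.Agent.helper75.SC

open Pool.Agent.helper5.NBS Pool.Agent.helper7.SC

variable {R : Type} [CommRing R] [Algebra ℂ R] {n : ℕ}

/-- The Rees algebra. -/
noncomputable def rees (x : Fin n → R) : Subalgebra ℂ (Polynomial R) :=
  Algebra.adjoin ℂ (insert Polynomial.X (Set.range fun l => Polynomial.C (x l) * Polynomial.X))

theorem X_mem_rees (x : Fin n → R) : (Polynomial.X : Polynomial R) ∈ rees x :=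
  Algebra.subset_adjoin (Set.mem_insert _ _)

theorem xX_mem_rees (x : Fin n → R) (l : Fin n) :
    (Polynomial.C (x l) * Polynomial.X : Polynomial R) ∈ rees x :=
  Algebra.subset_adjoin (Set.mem_insert_of_mem _ ⟨l, rfl⟩)

theorem coeff_mem_of_rees (x : Fin n → R) (p : Polynomial R) (hp : p ∈ rees x) (k : ℕ) :
    p.coeff k ∈ W x k := by
  unfold rees at hp
  induction hp using Algebra.adjoin_induction generalizing k with
  | mem p hp =>
    rcases hp with rfl | ⟨l, rfl⟩
    · rw [Polynomial.coeff_X]
      split_ifs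
      · exact one_mem_W x k
      · exact Submodule.zero_mem _
    · simp only [Polynomial.coeff_C_mul, Polynomial.coeff_X]
      split_ifs with h
      · subst h
        simpa using x_mem_W x l
      · simp
  | algebraMap c =>
    rw [Polynomial.algebraMap_apply, Polynomial.coeff_C]
    split_ifs
    · exact algebraMap_mem_W x k c
    · exact Submodule.zero_mem _
  | add p q _ _ hp hq =>
    rw [Polynomial.coeff_add]
    exact Submodule.add_mem _ (hp k) (hq k)
  | mul p q _ _ hp hq =>
    rw [Polynomial.coeff_mul]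
    refine Submodule.sum_mem _ fun ij hij => ?_
    have hij2 : ij.1 + ij.2 = k := Finset.HasAntidiagonal.mem_antidiagonal.1 hij
    rw [← hij2]
    exact W_mul x (hp _) (hq _)

theorem monomial_mem_rees (x : Fin n → R) (s : ℕ) (z : R) (hz : z ∈ W x s) :
    (Polynomial.C z * Polynomial.X ^ s : Polynomial R) ∈ rees x := by
  rw [mem_W] at hz
  obtain ⟨p, hp, rfl⟩ := hz
  rw [p.as_sum, map_sum, map_sum, Finset.sum_mul]
  refine Subalgebra.sum_mem _ fun m hm => ?_
  have h1 : (m.sum fun _ e => e) ≤ s := (MvPolynomial.le_totalDegree hm).trans hp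
  have h2 : Polynomial.C (MvPolynomial.aeval x (MvPolynomial.monomial m (p.coeff m))) *
      Polynomial.X ^ s = algebraMap ℂ (Polynomial R) (p.coeff m) *
        (∏ l, (Polynomial.C (x l) * Polynomial.X) ^ m l) *
        (Polynomial.X : Polynomial R) ^ (s - m.sum fun _ e => e) := by
    rw [MvPolynomial.aeval_monomial]
    have h3 : (m.prod fun i k => x i ^ k) = ∏ l, x l ^ m l :=
      Finsupp.prod_fintype _ _ fun i => pow_zero _
    have h4 : (m.sum fun _ e => e) = ∑ l, m l := Finsupp.sum_fintype _ _ fun i => rfl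
    rw [h4] at h1
    rw [h3, h4]
    rw [map_mul, map_prod]
    simp only [mul_pow, Finset.prod_mul_distrib, map_pow]
    rw [Finset.prod_pow_eq_pow_sum, Polynomial.algebraMap_apply, mul_assoc, mul_assoc, mul_assoc,
      ← pow_add]
    congr 4
    omega
  rw [h2]
  refine Subalgebra.mul_mem _ (Subalgebra.mul_mem _ (Subalgebra.algebraMap_mem _ _)
    (Subalgebra.prod_mem _ fun l _ => Subalgebra.pow_mem _ (xX_mem_rees x l) _))
    (Subalgebra.pow_mem _ (X_mem_rees x) _)

theorem exists_pow_mem_rees {x : Fin n → R} (hx : Algebra.adjoin ℂ (Set.range x) = ⊤)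
    (z : Polynomial R) : ∃ c : ℕ, Polynomial.X ^ c * z ∈ rees x := by
  induction z using Polynomial.induction_on' with
  | add p q hp hq =>
    obtain ⟨c, hc⟩ := hp
    obtain ⟨d, hd⟩ := hq
    refine ⟨c + d, ?_⟩
    have h1 : (Polynomial.X : Polynomial R) ^ (c + d) * (p + q) =
        Polynomial.X ^ d * (Polynomial.X ^ c * p) + Polynomial.X ^ c * (Polynomial.X ^ d * q) := by
      ring
    rw [h1]
    exact Subalgebra.add_mem _
      (Subalgebra.mul_mem _ (Subalgebra.pow_mem _ (X_mem_rees x) _) hc)
      (Subalgebra.mul_mem _ (Subalgebra.pow_mem _ (X_mem_rees x) _) hd)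
  | monomial k a =>
    obtain ⟨d, hd⟩ := exists_W hx a
    refine ⟨d, ?_⟩
    have h1 : (Polynomial.X : Polynomial R) ^ d * Polynomial.monomial k a =
        Polynomial.C a * Polynomial.X ^ d * Polynomial.X ^ k := by
      rw [← Polynomial.C_mul_X_pow_eq_monomial]
      ring
    rw [h1]
    exact Subalgebra.mul_mem _ (monomial_mem_rees x d a hd)
      (Subalgebra.pow_mem _ (X_mem_rees x) _)

theorem rees_noeth (x : Fin n → R) : IsNoetherianRing (rees x) := by
  have h1 : (rees x).FG := by
    unfold rees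
    exact ⟨((Set.finite_range fun l => Polynomial.C (x l) * Polynomial.X).insert
      Polynomial.X).toFinset, by simp⟩
  have h2 : Algebra.FiniteType ℂ (rees x) := (rees x).fg_iff_finiteType.1 h1
  exact Algebra.FiniteType.isNoetherianRing ℂ (rees x)

end Pool.Agent.helper75.SC

namespace Pool.Agent.helper7.SC

open Pool.Agent.helper5.NBS Pool.Agent.helper75.SC

theorem ar {R : Type} [CommRing R] [IsDomain R] [Algebra ℂ R] {n : ℕ} (x : Fin n → R)
    (hx : Algebra.adjoin ℂ (Set.range x) = ⊤) (G : R) (hG : G ≠ 0) :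
    ∃ c, ∀ s z, G * z ∈ W x s → z ∈ W x (s + c) := by
  classical
  have hno := rees_noeth x
  let aa : Ideal (rees x) := (Ideal.span {Polynomial.C G}).comap (rees x).val
  have haa : ∀ w : rees x, w ∈ aa ↔ ∃ z, (w : Polynomial R) = Polynomial.C G * z := by
    intro w
    rw [Ideal.mem_comap, Ideal.mem_span_singleton]
    exact Iff.rfl
  obtain ⟨t, ht⟩ := (isNoetherianRing_iff_ideal_fg _).1 hno aa
  have h1 : ∀ w : rees x, ∃ c : ℕ, w ∈ aa → ∃ z, (w : Polynomial R) = Polynomial.C G * z ∧
      Polynomial.X ^ c * z ∈ rees x := by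
    intro w
    by_cases hw : w ∈ aa
    · obtain ⟨z, hz⟩ := (haa w).1 hw
      obtain ⟨c, hc⟩ := exists_pow_mem_rees hx z
      exact ⟨c, fun _ => ⟨z, hz, hc⟩⟩
    · exact ⟨0, fun h => absurd h hw⟩
  choose cf hcf using h1
  let c := ∑ w ∈ t, cf w
  have h2 : ∀ w ∈ aa, ∃ z, (w : Polynomial R) = Polynomial.C G * z ∧
      Polynomial.X ^ c * z ∈ rees x := by
    intro w hw
    rw [← ht] at hw
    induction hw using Submodule.span_induction with
    | mem w hw =>
      have hwa : w ∈ aa := by
        rw [← ht]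
        exact Submodule.subset_span hw
      obtain ⟨z, hz, hz2⟩ := hcf w hwa
      refine ⟨z, hz, ?_⟩
      have h3 : cf w ≤ c := Finset.single_le_sum (f := cf) (fun _ _ => Nat.zero_le _) hw
      have h4 : (Polynomial.X : Polynomial R) ^ c * z =
          Polynomial.X ^ (c - cf w) * (Polynomial.X ^ cf w * z) := by
        rw [← mul_assoc, ← pow_add, Nat.sub_add_cancel h3]
      rw [h4]
      exact Subalgebra.mul_mem _ (Subalgebra.pow_mem _ (X_mem_rees x) _) hz2
    | zero => exact ⟨0, by simp, by simp⟩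
    | add w1 w2 _ _ h1 h2 =>
      obtain ⟨z1, ha, hb⟩ := h1
      obtain ⟨z2, hc, hd⟩ := h2
      refine ⟨z1 + z2, ?_, ?_⟩
      · rw [Subalgebra.coe_add, ha, hc]
        ring
      · rw [mul_add]
        exact Subalgebra.add_mem _ hb hd
    | smul s w _ h =>
      obtain ⟨z, ha, hb⟩ := h
      refine ⟨(s : Polynomial R) * z, ?_, ?_⟩
      · rw [smul_eq_mul, Subalgebra.coe_mul, ha]
        ring
      · have h3 : (Polynomial.X : Polynomial R) ^ c * ((s : Polynomial R) * z) =
            (s : Polynomial R) * (Polynomial.X ^ c * z) := by ring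
        rw [h3]
        exact Subalgebra.mul_mem _ s.2 hb
  refine ⟨c, fun s z hz => ?_⟩
  let w : rees x := ⟨_, monomial_mem_rees x s _ hz⟩
  have h3 : w ∈ aa := by
    rw [haa]
    refine ⟨Polynomial.C z * Polynomial.X ^ s, ?_⟩
    show Polynomial.C (G * z) * Polynomial.X ^ s = _
    rw [Polynomial.C_mul, mul_assoc]
  obtain ⟨z', hz1, hz2⟩ := h2 w h3
  have h4 : z' = Polynomial.C z * Polynomial.X ^ s := by
    have h5 : Polynomial.C G * z' = Polynomial.C G * (Polynomial.C z * Polynomial.X ^ s) := by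
      rw [← hz1]
      show Polynomial.C (G * z) * Polynomial.X ^ s = _
      rw [Polynomial.C_mul, mul_assoc]
    exact mul_left_cancel₀ (by simpa using hG) h5
  rw [h4] at hz2
  have h5 := coeff_mem_of_rees x _ hz2 (s + c)
  have h6 : (Polynomial.X ^ c * (Polynomial.C z * Polynomial.X ^ s) : Polynomial R) =
      Polynomial.C z * Polynomial.X ^ (s + c) := by
    rw [pow_add]
    ring
  rw [h6] at h5
  simpa using h5

end Pool.Agent.helper7.SC
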